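import Pool.Agent.X51.KE.Q2
import Pool.Agent.X193.KE.SpanG
import Pool.Agent.X60.KE.FourG
import Pool.Agent.X61.KE.Asm

open Pool.Agent.X51.KE

namespace Pool.Agent.Results.MP_fb0157_co.OddCounterexample

/-- `P` is a `k`-equilateral `n`-gon in `E^d` (vertices indexed by `ZMod n`). -/
def IsEquilateral {n d : ℕ} (k : ℕ) (P : ZMod n → EuclideanSpace ℝ (Fin d)) : Prop :=
  ∀ j : ℕ, 1 ≤ j → j ≤ k → ∃ c : ℝ, ∀ i : ZMod n, dist (P i) (P (i + (j : ZMod n))) = c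

/-- `P` spans `E^d`. -/
def Spans {n d : ℕ} (P : ZMod n → EuclideanSpace ℝ (Fin d)) : Prop :=
  affineSpan ℝ (Set.range P) = ⊤

/-- A 5-equilateral 21-gon that spans `E^7`. -/
theorem example21 : ∃ P : ZMod 21 → EuclideanSpace ℝ (Fin (2 * 4 - 1)),
    IsEquilateral (4 + 1) P ∧ Spans P := by
  have hF := Pool.Agent.X60.KEG.t_FOURG 21 3 5 G.F3 G.comb3
  obtain ⟨δ, hδ, hsp⟩ := Pool.Agent.X193.KE.t_SPANG 21 3 G.F3 2 G.inj3 G.ne0 G.neneg G.two0 G.neg2 G.neg2'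
  obtain ⟨ε, hε, X, hX, c, hc⟩ := G.pert 21 3 5 G.F3 hF
    (fun i => (ZMod.stdAddChar ((2 : ZMod 21) * i) : ℂ).re) δ hδ
  obtain ⟨P, hP1, hP2⟩ := Pool.Agent.X61.KE.t_ASM 21 2 X
    (fun i => ε * (ZMod.stdAddChar ((2 : ZMod 21) * i) : ℂ).re) (hsp X hX ε hε)
  refine ⟨P, ?_, hP1⟩
  intro j hj1 hj2
  refine ⟨Real.sqrt (c ⟨j - 1, by omega⟩), ?_⟩
  intro i
  have h := hc i ⟨j - 1, by omega⟩
  have e : ((j - 1 + 1 : ℕ) : ZMod 21) = (j : ZMod 21) := by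
    congr 1; omega
  simp only [e] at h
  rw [← Real.sqrt_sq (dist_nonneg (x := P i) (y := P (i + (j : ZMod 21)))), hP2]
  exact congrArg Real.sqrt h

/-- Q2 fails: with `k = 4` and `n = 21` (odd, `> 2k+1`) there is a `(k+1)`-equilateral `n`-gon that
spans `E^(2k-1)`. -/
theorem result : ∃ k n : ℕ, k = 4 ∧ n = 21 ∧ 2 ≤ k ∧ Odd n ∧ 2 * k + 1 < n ∧
    ∃ P : ZMod n → EuclideanSpace ℝ (Fin (2 * k - 1)), IsEquilateral (k + 1) P ∧ Spans P :=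
  ⟨4, 21, rfl, rfl, by norm_num, by decide, by norm_num, example21⟩

end Pool.Agent.Results.MP_fb0157_co.OddCounterexample
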