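import Pool.Agent.X51.KE.Pert
import Pool.Agent.X115.KE.Comb
import Pool.Agent.X51.KE.Even
import Pool.Agent.X193.KE.Span
import Pool.Agent.X60.KE.Four
import Pool.Agent.X61.KE.Asm

open Pool.Agent.X51.KE

namespace Pool.Agent.Results.MP_fb0157_co.Spanning

/-- `P` is a `k`-equilateral `n`-gon in `E^d` (vertices indexed by `ZMod n`). -/
def IsEquilateral {n d : ℕ} (k : ℕ) (P : ZMod n → EuclideanSpace ℝ (Fin d)) : Prop :=
  ∀ j : ℕ, 1 ≤ j → j ≤ k → ∃ c : ℝ, ∀ i : ZMod n, dist (P i) (P (i + (j : ZMod n))) = c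

/-- `P` spans `E^d`. -/
def Spans {n d : ℕ} (P : ZMod n → EuclideanSpace ℝ (Fin d)) : Prop :=
  affineSpan ℝ (Set.range P) = ⊤

theorem even_case (n K : ℕ) (hK : 1 ≤ K) (hn : Even n) (hn2 : 2 * K + 6 ≤ n) :
    ∃ P : ZMod n → EuclideanSpace ℝ (Fin (2 * K + 3)), IsEquilateral (K + 2) P ∧ Spans P := by
  have : NeZero n := ⟨by omega⟩
  obtain ⟨P, hP1, hP2⟩ := Pool.Agent.X61.KE.t_ASM n K
    (fun i l => ZMod.stdAddChar (((l.val + 1 : ℕ) : ZMod n) * i))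
    (fun i => (ZMod.stdAddChar (((n / 2 : ℕ) : ZMod n) * i) : ℂ).re)
    (Pool.Agent.X51.KE.Ev.t_EVEN n K hK hn hn2)
  refine ⟨P, ?_, hP1⟩
  intro j _ _
  -- the extra coordinate is real
  have hreal : ∀ i : ZMod n, (((ZMod.stdAddChar (((n / 2 : ℕ) : ZMod n) * i) : ℂ).re : ℝ) : ℂ) =
      ZMod.stdAddChar (((n / 2 : ℕ) : ZMod n) * i) := by
    intro i
    set z : ℂ := ZMod.stdAddChar (((n / 2 : ℕ) : ZMod n) * i) with hz
    have h1 : z * z = 1 := by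
      rw [hz, ← AddChar.map_add_eq_mul, ← add_mul]
      have : ((n / 2 : ℕ) : ZMod n) + ((n / 2 : ℕ) : ZMod n) = 0 := by
        rw [← Nat.cast_add]
        have h2 : n / 2 + n / 2 = n := by obtain ⟨a, ha⟩ := hn; omega
        rw [h2]; simp
      rw [this, zero_mul, AddChar.map_zero_eq_one]
    rcases mul_self_eq_one_iff.1 h1 with h | h <;> rw [h] <;> simp
  have hconst : ∀ (f i : ZMod n), ‖(ZMod.stdAddChar (f * i) : ℂ) - ZMod.stdAddChar (f * (i + (j : ZMod n)))‖ =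
      ‖(1 : ℂ) - ZMod.stdAddChar (f * (j : ZMod n))‖ := by
    intro f i
    rw [mul_add, AddChar.map_add_eq_mul]
    rw [show (ZMod.stdAddChar (f * i) : ℂ) - ZMod.stdAddChar (f * i) * ZMod.stdAddChar (f * (j : ZMod n)) =
      ZMod.stdAddChar (f * i) * (1 - ZMod.stdAddChar (f * (j : ZMod n))) by ring, norm_mul,
      AddChar.norm_apply, one_mul]
  refine ⟨Real.sqrt (∑ l : Fin (K + 1), ‖(1 : ℂ) - ZMod.stdAddChar (((l.val + 1 : ℕ) : ZMod n) * (j : ZMod n))‖ ^ 2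
    + ‖(1 : ℂ) - ZMod.stdAddChar (((n / 2 : ℕ) : ZMod n) * (j : ZMod n))‖ ^ 2), ?_⟩
  intro i
  rw [← Real.sqrt_sq (dist_nonneg (x := P i) (y := P (i + (j : ZMod n)))), hP2]
  congr 2
  · exact Finset.sum_congr rfl fun l _ => by rw [hconst]
  · rw [← hconst _ i, ← hreal i, ← hreal (i + (j : ZMod n)), ← Complex.ofReal_sub,
      Complex.norm_real, Real.norm_eq_abs, sq_abs]
    simp

theorem odd_case (n K : ℕ) (hK : 1 ≤ K) (hn : Odd n) (hn2 : 2 * K + 7 ≤ n) :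
    ∃ P : ZMod n → EuclideanSpace ℝ (Fin (2 * K + 3)), IsEquilateral (K + 2) P ∧ Spans P := by
  have : NeZero n := ⟨by omega⟩
  have hF := Pool.Agent.X60.KE.t_FOUR n K (Pool.Agent.X115.KE.t n K hK hn hn2)
  obtain ⟨δ, hδ, hsp⟩ := Pool.Agent.X193.KE.t_SPAN n K hK hn hn2
  obtain ⟨ε, hε, X, hX, c, hc⟩ := t_PERT n K hF
    (fun i => (ZMod.stdAddChar (((K + 1 : ℕ) : ZMod n) * i) : ℂ).re) δ hδ
  obtain ⟨P, hP1, hP2⟩ := Pool.Agent.X61.KE.t_ASM n K X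
    (fun i => ε * (ZMod.stdAddChar (((K + 1 : ℕ) : ZMod n) * i) : ℂ).re) (hsp X hX ε hε)
  refine ⟨P, ?_, hP1⟩
  intro j hj1 hj2
  refine ⟨Real.sqrt (c ⟨j - 1, by omega⟩), ?_⟩
  intro i
  have h := hc i ⟨j - 1, by omega⟩
  have e : ((j - 1 + 1 : ℕ) : ZMod n) = (j : ZMod n) := by
    congr 1; omega
  simp only [e] at h
  rw [← Real.sqrt_sq (dist_nonneg (x := P i) (y := P (i + (j : ZMod n)))), hP2, h]

/-- For every `k ≥ 3` and every `n > 2k+1` there is a `k`-equilateral `n`-gon spanning `E^(2k-1)`. -/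
theorem result : ∀ k n : ℕ, 3 ≤ k → 2 * k + 1 < n →
    ∃ P : ZMod n → EuclideanSpace ℝ (Fin (2 * k - 1)), IsEquilateral k P ∧ Spans P := by
  intro k n hk hn
  obtain ⟨K, rfl⟩ : ∃ K, k = K + 2 := ⟨k - 2, by omega⟩
  rcases Nat.even_or_odd n with he | ho
  · exact even_case n K (by omega) he (by omega)
  · exact odd_case n K (by omega) ho (by obtain ⟨a, ha⟩ := ho; omega)

end Pool.Agent.Results.MP_fb0157_co.Spanning
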